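import Pool.Agent.helper62.VD.SpecE

/-!
# MP_07c750, project VD, row EGL (gluing of two orbits)
-/

set_option autoImplicit false

open MeasureTheory Filter Set Topology
open scoped ENNReal

namespace Pool.Agent.VDE

/-- the sum of `n` steps -/
theorem EGL_sum {τ : ℕ → ℝ} {e : ℝ} {a n : ℕ} (h : ∀ i, a ≤ i → i < a + n → |τ (i + 1) - τ i - 1| ≤ e) :
    |τ (a + n) - τ a - n| ≤ n * e := by
  induction n with
  | zero => simp
  | succ n ih =>
    have h1 := ih fun i hi hi' => h i hi (by omega)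
    have h2 := h (a + n) (by omega) (by omega)
    have h3 : τ (a + (n + 1)) - τ a - ((n + 1 : ℕ) : ℝ) = (τ (a + n + 1) - τ (a + n) - 1) + (τ (a + n) - τ a - n) := by
      rw [← add_assoc]
      push_cast
      ring
    rw [h3]
    refine (abs_add_le _ _).trans ?_
    push_cast
    linarith

theorem EGL_proof (h1 : EUC_stmt) (h2 : ECT_stmt) : EGL_stmt := by
  intro Γ S _ _ _ _ _ _ _ μ F0 K d f hB hS ε hε
  obtain ⟨-, -, hE3, -⟩ := h1 Γ S μ F0 K d f hB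
  obtain ⟨δ1, hδ1, hmv⟩ := hE3 (ε / 2) (by positivity)
  obtain ⟨ε', hε', he1, he2, he3⟩ : ∃ ε' : ℝ, 0 < ε' ∧ ε' ≤ ε / 2 ∧ ε' ≤ 1 / 4 ∧ ε' ≤ δ1 := by
    refine ⟨min (min (ε / 2) (1 / 4)) δ1, ?_, ?_, ?_, min_le_right _ _⟩
    · positivity
    · exact (min_le_left _ _).trans (min_le_left _ _)
    · exact (min_le_left _ _).trans (min_le_right _ _)
  obtain ⟨δ, hδ, hsh⟩ := hS ε' hε'
  obtain ⟨N0, hN0⟩ := h2 Γ S μ F0 K d f hB δ hδ
  refine ⟨3 + 2 * N0, by positivity, ?_⟩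
  intro x y T U hT hU
  obtain ⟨n1, hn1⟩ : ∃ n1 : ℕ, n1 = ⌈T⌉₊ := ⟨_, rfl⟩
  obtain ⟨n2, hn2⟩ : ∃ n2 : ℕ, n2 = ⌈U⌉₊ := ⟨_, rfl⟩
  obtain ⟨n, hn, hnN, γ, c, hc0, hcn, hc⟩ := hN0 (f n1 x) y
  -- the pseudo-orbit
  obtain ⟨X, hXa, hXb, hXc⟩ : ∃ X : ℕ → S, (∀ i, i ≤ n1 → X i = f i x) ∧ (∀ k, k ≤ n → X (n1 + k) = c k) ∧
      ∀ k : ℕ, X (n1 + n + k) = f k (γ • y) := by
    refine ⟨fun i => if i ≤ n1 then f i x else if i ≤ n1 + n then c (i - n1) else f ((i - (n1 + n) : ℕ) : ℝ) (γ • y), ?_, ?_, ?_⟩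
    · intro i hi
      simp only [hi, if_true]
    · intro k hk
      rcases Nat.eq_zero_or_pos k with h | h
      · subst h
        simp only [add_zero, le_refl, if_true]
        exact hc0.symm
      · simp only [show ¬ (n1 + k ≤ n1) by omega, if_false, show n1 + k ≤ n1 + n by omega, if_true,
          Nat.add_sub_cancel_left]
    · intro k
      rcases Nat.eq_zero_or_pos k with h | h
      · subst h
        simp only [add_zero, show ¬ (n1 + n ≤ n1) by omega, if_false, le_refl, if_true, Nat.add_sub_cancel_left]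
        rw [hcn, Nat.cast_zero, hB.f0]
      · simp only [show ¬ (n1 + n + k ≤ n1) by omega, if_false, show ¬ (n1 + n + k ≤ n1 + n) by omega,
          Nat.add_sub_cancel_left]
  have hf1 : ∀ (k : ℕ) (w : S), f 1 (f k w) = f ((k + 1 : ℕ) : ℝ) w := by
    intro k w
    rw [← hB.fa]
    congr 1
    push_cast
    ring
  have hXa' : ∀ l, l < n1 → X (l + 1) = f 1 (X l) := by
    intro l hl
    rw [hXa l (by omega), hXa (l + 1) (by omega), hf1]
  have hXc' : ∀ l, n1 + n ≤ l → X (l + 1) = f 1 (X l) := by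
    intro l hl
    obtain ⟨k, rfl⟩ := Nat.exists_eq_add_of_le hl
    rw [hXc k, add_assoc, hXc (k + 1), hf1]
  have hst : ∀ i < n1 + n + n2, d (f 1 (X i)) (X (i + 1)) ≤ δ := by
    intro i _
    rcases Nat.lt_or_ge i n1 with h | h
    · rw [hXa' i h, hB.dz]
      exact hδ.le
    · rcases Nat.lt_or_ge i (n1 + n) with h' | h'
      · obtain ⟨k, rfl⟩ := Nat.exists_eq_add_of_le h
        rw [add_assoc, hXb k (by omega), hXb (k + 1) (by omega)]
        exact (hc k (by omega)).le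
      · rw [hXc' i h', hB.dz]
        exact hδ.le
  obtain ⟨z, τ, hτ0, hτ1, hτ2, hτ3⟩ := hsh (n1 + n + n2) X hst
  -- moving the time by a small amount
  have key : ∀ (p : S) (a w : ℝ), d p (f a z) ≤ ε' → |a - w| ≤ ε' → d p (f w z) ≤ ε := by
    intro p a w hp ha
    have e1 : f a z = f (a - w) (f w z) := by
      rw [← hB.fa]
      congr 1
      ring
    have e2 : d (f w z) (f a z) ≤ ε / 2 := by
      rw [e1]
      exact hmv _ _ (ha.trans he3)
    have e3 := hB.dt p (f a z) (f w z)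
    rw [hB.ds (f a z) (f w z)] at e3
    linarith
  have hA : ∀ i, i ≤ n1 → |τ i - i| ≤ ε' := by
    intro i hi
    have h := hτ3 0 i (Nat.zero_le _) (by omega) (fun l _ hl => hXa' l (by omega))
    rw [hτ0] at h
    simpa using h
  have hC : ∀ i, i ≤ n2 → |τ (n1 + n + i) - τ (n1 + n) - i| ≤ ε' := by
    intro i hi
    have h := hτ3 (n1 + n) (n1 + n + i) (by omega) (by omega) (fun l hl _ => hXc' l hl)
    have e : ((n1 + n + i : ℕ) : ℝ) - ((n1 + n : ℕ) : ℝ) = i := by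
      push_cast
      ring
    rw [e] at h
    exact h
  have hM : |τ (n1 + n) - τ n1 - n| ≤ n * ε' := EGL_sum fun i _ hi => hτ1 i (by omega)
  have hM' : (n : ℝ) * ε' ≤ n * (1 / 4) := mul_le_mul_of_nonneg_left he2 (Nat.cast_nonneg _)
  have hn' : (1 : ℝ) ≤ n := by exact_mod_cast hn
  have hnN' : (n : ℝ) ≤ N0 := by exact_mod_cast hnN
  have hT1 : T ≤ n1 := by
    rw [hn1]
    exact Nat.le_ceil T
  have hT2 : (n1 : ℝ) < T + 1 := by
    rw [hn1]
    exact Nat.ceil_lt_add_one hT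
  have hA1 := abs_le.1 (hA n1 le_rfl)
  have hM1 := abs_le.1 hM
  have hN00 : (0 : ℝ) ≤ N0 := Nat.cast_nonneg _
  refine ⟨γ, z, τ (n1 + n) - T, by linarith, by linarith, ?_, ?_⟩
  · intro s hs
    have hi1 : (⌊s⌋₊ : ℝ) ≤ s := Nat.floor_le hs.1
    have hi2 : s < ⌊s⌋₊ + 1 := Nat.lt_floor_add_one s
    have hi3 : ⌊s⌋₊ ≤ n1 := by
      have h : (⌊s⌋₊ : ℝ) ≤ n1 := by linarith [hs.2]
      exact_mod_cast h
    have h3 := hτ2 ⌊s⌋₊ (by omega) (s - ⌊s⌋₊) ⟨by linarith, by linarith⟩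
    rw [hXa _ hi3, ← hB.fa, sub_add_cancel] at h3
    apply key _ _ _ h3
    have h4 := hA _ hi3
    have e : τ ⌊s⌋₊ + (s - ⌊s⌋₊) - s = τ ⌊s⌋₊ - ⌊s⌋₊ := by ring
    rw [e]
    exact h4
  · intro s hs
    have hU1 : U ≤ n2 := by
      rw [hn2]
      exact Nat.le_ceil U
    have hi1 : (⌊s⌋₊ : ℝ) ≤ s := Nat.floor_le hs.1
    have hi2 : s < ⌊s⌋₊ + 1 := Nat.lt_floor_add_one s
    have hi3 : ⌊s⌋₊ ≤ n2 := by
      have h : (⌊s⌋₊ : ℝ) ≤ n2 := by linarith [hs.2]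
      exact_mod_cast h
    have h3 := hτ2 (n1 + n + ⌊s⌋₊) (by omega) (s - ⌊s⌋₊) ⟨by linarith, by linarith⟩
    rw [hXc, ← hB.fa, sub_add_cancel, hB.fe] at h3
    apply key _ _ _ h3
    have h4 := hC _ hi3
    have e : τ (n1 + n + ⌊s⌋₊) + (s - ⌊s⌋₊) - (T + (τ (n1 + n) - T) + s) = τ (n1 + n + ⌊s⌋₊) - τ (n1 + n) - ⌊s⌋₊ := by ring
    rw [e]
    exact h4

end Pool.Agent.VDE
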